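import Pool.Agent.H801Z.TL.Main

/-! Every 2-large set of positive integers is a set of `d`-nilBohr recurrence for all `d ≥ 1`. -/

namespace Pool.Agent.Results.MP_87965e_co.ATwoLargeNilBohr

open Pool.Agent.H801Z.TL

theorem result : ∀ d : ℕ, 1 ≤ d → ∀ S : Set ℕ+, TwoLarge S → NilBohrRec d S :=
  main

end Pool.Agent.Results.MP_87965e_co.ATwoLargeNilBohr
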